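import Mathlib

namespace Pool.Agent.Results.MP_18c441_lc.Confluent

open Relation

/-- applicative terms over variables and the six constants -/
inductive Tm : Type
  | var : ℕ → Tm
  | S : Tm
  | K : Tm
  | I : Tm
  | T : Tm
  | F : Tm
  | C : Tm
  | app : Tm → Tm → Tm

open Tm

/-- one rewrite step in any context, the condition of the sixth rule being read in `E` -/
inductive Step (E : Tm → Tm → Prop) : Tm → Tm → Prop
  | ruleI (x) : Step E (app I x) x
  | ruleK (x y) : Step E (app (app K x) y) x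
  | ruleS (x y z) : Step E (app (app (app S x) y) z) (app (app x z) (app y z))
  | ruleT (x y) : Step E (app (app (app C T) x) y) x
  | ruleF (x y) : Step E (app (app (app C F) x) y) y
  | ruleC (z x y) : E x y → Step E (app (app (app C z) x) y) x
  | left (a a' b) : Step E a a' → Step E (app a b) (app a' b)
  | right (a b b') : Step E b b' → Step E (app a b) (app a b')

/-- the stratified rewrite relations -/
def lev : ℕ → Tm → Tm → Prop
  | 0 => fun _ _ => False
  | n + 1 => Step (EqvGen (lev n))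

/-- the rewrite relation of the system -/
def R (a b : Tm) : Prop := ∃ n, lev n a b

theorem step_mono {E E' : Tm → Tm → Prop} (h : ∀ a b, E a b → E' a b) {a b : Tm}
    (s : Step E a b) : Step E' a b := by
  induction s with
  | ruleI x => exact .ruleI x
  | ruleK x y => exact .ruleK x y
  | ruleS x y z => exact .ruleS x y z
  | ruleT x y => exact .ruleT x y
  | ruleF x y => exact .ruleF x y
  | ruleC z x y e => exact .ruleC z x y (h _ _ e)
  | left a a' b _ ih => exact .left a a' b ih
  | right a b b' _ ih => exact .right a b b' ih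

theorem lev_succ : ∀ n a b, lev n a b → lev (n + 1) a b := by
  intro n
  induction n with
  | zero => intro a b h; exact h.elim
  | succ n ih =>
    intro a b h
    exact step_mono (fun a b e => EqvGen.mono ih _ _ e) h

theorem lev_mono {m n : ℕ} (h : m ≤ n) : ∀ a b, lev m a b → lev n a b := by
  induction h with
  | refl => exact fun _ _ h => h
  | step _ ih => exact fun a b h => lev_succ _ a b (ih a b h)

def Q (a b : Tm) : Prop := EqvGen R a b

theorem Q.refl (a : Tm) : Q a a := EqvGen.refl a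
theorem Q.symm {a b : Tm} (h : Q a b) : Q b a := EqvGen.symm _ _ h
theorem Q.trans {a b c : Tm} (h : Q a b) (h' : Q b c) : Q a c := EqvGen.trans _ _ _ h h'

theorem Q_lev {a b : Tm} (h : Q a b) : ∃ n, EqvGen (lev n) a b := by
  induction h with
  | rel a b h => obtain ⟨n, h⟩ := h; exact ⟨n, EqvGen.rel _ _ h⟩
  | refl a => exact ⟨0, EqvGen.refl a⟩
  | symm a b _ ih => obtain ⟨n, h⟩ := ih; exact ⟨n, EqvGen.symm _ _ h⟩
  | trans a b c _ _ ih1 ih2 =>
    obtain ⟨m, h1⟩ := ih1
    obtain ⟨n, h2⟩ := ih2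
    exact ⟨max m n, EqvGen.trans _ _ _ (EqvGen.mono (lev_mono (le_max_left m n)) _ _ h1)
      (EqvGen.mono (lev_mono (le_max_right m n)) _ _ h2)⟩

theorem lev_Q {n : ℕ} {a b : Tm} (h : EqvGen (lev n) a b) : Q a b :=
  EqvGen.mono (r := lev n) (p := R) (fun _ _ h => ⟨n, h⟩) _ _ h

theorem R_left {a a' : Tm} (b : Tm) (h : R a a') : R (app a b) (app a' b) := by
  obtain ⟨n, h⟩ := h
  cases n with
  | zero => exact h.elim
  | succ n => exact ⟨n + 1, Step.left a a' b h⟩

theorem R_right (a : Tm) {b b' : Tm} (h : R b b') : R (app a b) (app a b') := by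
  obtain ⟨n, h⟩ := h
  cases n with
  | zero => exact h.elim
  | succ n => exact ⟨n + 1, Step.right a b b' h⟩

theorem R_I (x : Tm) : R (app I x) x := ⟨1, Step.ruleI x⟩
theorem R_K (x y : Tm) : R (app (app K x) y) x := ⟨1, Step.ruleK x y⟩
theorem R_S (x y z : Tm) : R (app (app (app S x) y) z) (app (app x z) (app y z)) :=
  ⟨1, Step.ruleS x y z⟩
theorem R_T (x y : Tm) : R (app (app (app C T) x) y) x := ⟨1, Step.ruleT x y⟩
theorem R_F (x y : Tm) : R (app (app (app C F) x) y) y := ⟨1, Step.ruleF x y⟩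
theorem R_C (z : Tm) {x y : Tm} (h : Q x y) : R (app (app (app C z) x) y) x := by
  obtain ⟨n, h⟩ := Q_lev h
  exact ⟨n + 1, Step.ruleC z x y h⟩

abbrev Rs := ReflTransGen R

theorem Rs_left {a a' : Tm} (b : Tm) (h : Rs a a') : Rs (app a b) (app a' b) :=
  ReflTransGen.lift (fun x => app x b) (fun _ _ h => R_left b h) _ _ h

theorem Rs_right (a : Tm) {b b' : Tm} (h : Rs b b') : Rs (app a b) (app a b') :=
  ReflTransGen.lift (fun x => app a x) (fun _ _ h => R_right a h) _ _ h

theorem Rs_app {a a' b b' : Tm} (h : Rs a a') (h' : Rs b b') : Rs (app a b) (app a' b') :=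
  (Rs_left b h).trans (Rs_right a' h')

theorem Rs_Q {a b : Tm} (h : Rs a b) : Q a b := by
  induction h with
  | refl => exact Q.refl _
  | tail _ h ih => exact ih.trans (EqvGen.rel _ _ h)

def val : Bool → Tm
  | true => T
  | false => F

/-- evaluation of a head term applied to a stack -/
inductive Ev : Bool → Tm → List Tm → Prop
  | tt : Ev true T []
  | ff : Ev false F []
  | app (v a b l) : Ev v a (b :: l) → Ev v (app a b) l
  | eI (v x l) : Ev v x l → Ev v I (x :: l)
  | eK (v x y l) : Ev v x l → Ev v K (x :: y :: l)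
  | eS (v x y z l) : Ev v x (z :: app y z :: l) → Ev v S (x :: y :: z :: l)
  | eT (v z x y l) : Ev true z [] → Ev v x l → Ev v C (z :: x :: y :: l)
  | eF (v z x y l) : Ev false z [] → Ev v y l → Ev v C (z :: x :: y :: l)
  | eC (v z x y l) : Q x y → Ev v x l → Ev v y l → Ev v C (z :: x :: y :: l)

theorem Rs_apps {a a' : Tm} (l : List Tm) (h : Rs a a') :
    Rs (l.foldl app a) (l.foldl app a') := by
  induction l generalizing a a' with
  | nil => exact h
  | cons b l ih => exact ih (Rs_left b h)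

theorem ev_sound {v : Bool} {a : Tm} {l : List Tm} (h : Ev v a l) :
    Rs (l.foldl app a) (val v) := by
  induction h with
  | tt => exact .refl
  | ff => exact .refl
  | app v a b l _ ih => exact ih
  | eI v x l _ ih => exact (Rs_apps l (.single (R_I x))).trans ih
  | eK v x y l _ ih => exact (Rs_apps l (.single (R_K x y))).trans ih
  | eS v x y z l _ ih => exact (Rs_apps l (.single (R_S x y z))).trans ih
  | eT v z x y l _ _ ihz ih =>
    refine (Rs_apps l ?_).trans ih
    exact (Rs_left y (Rs_left x (Rs_right C ihz))).trans (.single (R_T x y))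
  | eF v z x y l _ _ ihz ih =>
    refine (Rs_apps l ?_).trans ih
    exact (Rs_left y (Rs_left x (Rs_right C ihz))).trans (.single (R_F x y))
  | eC v z x y l e _ _ ih _ => exact (Rs_apps l (.single (R_C z e))).trans ih

/-- root steps -/
inductive Root (E : Tm → Tm → Prop) : Tm → Tm → Prop
  | ruleI (x) : Root E (app I x) x
  | ruleK (x y) : Root E (app (app K x) y) x
  | ruleS (x y z) : Root E (app (app (app S x) y) z) (app (app x z) (app y z))
  | ruleT (x y) : Root E (app (app (app C T) x) y) x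
  | ruleF (x y) : Root E (app (app (app C F) x) y) y
  | ruleC (z x y) : E x y → Root E (app (app (app C z) x) y) x

/-- parallel steps at disjoint positions -/
inductive Par (E : Tm → Tm → Prop) : Tm → Tm → Prop
  | refl (a) : Par E a a
  | root (a b) : Root E a b → Par E a b
  | app (a a' b b') : Par E a a' → Par E b b' → Par E (app a b) (app a' b')

theorem step_par {E : Tm → Tm → Prop} {a b : Tm} (s : Step E a b) : Par E a b := by
  induction s with
  | ruleI x => exact .root _ _ (.ruleI x)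
  | ruleK x y => exact .root _ _ (.ruleK x y)
  | ruleS x y z => exact .root _ _ (.ruleS x y z)
  | ruleT x y => exact .root _ _ (.ruleT x y)
  | ruleF x y => exact .root _ _ (.ruleF x y)
  | ruleC z x y e => exact .root _ _ (.ruleC z x y e)
  | left a a' b _ ih => exact .app _ _ _ _ ih (.refl b)
  | right a b b' _ ih => exact .app _ _ _ _ (.refl a) ih

theorem par_Rs {E : Tm → Tm → Prop} (hE : ∀ x y, E x y → Q x y) {a b : Tm} (h : Par E a b) :
    Rs a b := by
  induction h with
  | refl a => exact .refl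
  | root a b h =>
    cases h with
    | ruleI => exact .single (R_I _)
    | ruleK => exact .single (R_K _ _)
    | ruleS => exact .single (R_S _ _ _)
    | ruleT => exact .single (R_T _ _)
    | ruleF => exact .single (R_F _ _)
    | ruleC z x y e => exact .single (R_C _ (hE _ _ e))
  | app a a' b b' _ _ ih1 ih2 => exact Rs_app ih1 ih2

theorem root_fwd {E : Tm → Tm → Prop} (hE : ∀ x y, E x y → ∀ v l, Ev v x l ↔ Ev v y l)
    {a b : Tm} (h : Root E a b) {v : Bool} {l : List Tm} (e : Ev v a l) : Ev v b l := by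
  cases h with
  | ruleI =>
    cases e with | app _ _ _ _ e => cases e with | eI _ _ _ e => exact e
  | ruleK =>
    cases e with | app _ _ _ _ e => cases e with | app _ _ _ _ e => cases e with | eK _ _ _ _ e => exact e
  | ruleS =>
    cases e with | app _ _ _ _ e => cases e with | app _ _ _ _ e => cases e with | app _ _ _ _ e =>
      cases e with | eS _ _ _ _ _ e => exact .app _ _ _ _ (.app _ _ _ _ e)
  | ruleT =>
    cases e with | app _ _ _ _ e => cases e with | app _ _ _ _ e => cases e with | app _ _ _ _ e =>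
      cases e with
      | eT _ _ _ _ _ _ e => exact e
      | eF _ _ _ _ _ ez e => cases ez
      | eC _ _ _ _ _ _ e _ => exact e
  | ruleF =>
    cases e with | app _ _ _ _ e => cases e with | app _ _ _ _ e => cases e with | app _ _ _ _ e =>
      cases e with
      | eT _ _ _ _ _ ez e => cases ez
      | eF _ _ _ _ _ ez e => exact e
      | eC _ _ _ _ _ _ _ e => exact e
  | ruleC z x y h =>
    cases e with | app _ _ _ _ e => cases e with | app _ _ _ _ e => cases e with | app _ _ _ _ e =>
      cases e with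
      | eT _ _ _ _ _ ez e => exact e
      | eF _ _ _ _ _ ez e => exact (hE _ _ h _ _).2 e
      | eC _ _ _ _ _ _ e _ => exact e

theorem root_bwd {E : Tm → Tm → Prop} (hQ : ∀ x y, E x y → Q x y)
    (hE : ∀ x y, E x y → ∀ v l, Ev v x l ↔ Ev v y l)
    {a b : Tm} (h : Root E a b) {v : Bool} {l : List Tm} (e : Ev v b l) : Ev v a l := by
  cases h with
  | ruleI => exact .app _ _ _ _ (.eI _ _ _ e)
  | ruleK => exact .app _ _ _ _ (.app _ _ _ _ (.eK _ _ _ _ e))
  | ruleS =>
    cases e with | app _ _ _ _ e => cases e with | app _ _ _ _ e =>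
      exact .app _ _ _ _ (.app _ _ _ _ (.app _ _ _ _ (.eS _ _ _ _ _ e)))
  | ruleT => exact .app _ _ _ _ (.app _ _ _ _ (.app _ _ _ _ (.eT _ _ _ _ _ .tt e)))
  | ruleF => exact .app _ _ _ _ (.app _ _ _ _ (.app _ _ _ _ (.eF _ _ _ _ _ .ff e)))
  | ruleC z x y h =>
    exact .app _ _ _ _ (.app _ _ _ _ (.app _ _ _ _
      (.eC _ _ _ _ _ (hQ _ _ h) e ((hE _ _ h _ _).1 e))))

theorem f2_refl {E : Tm → Tm → Prop} (l : List Tm) : List.Forall₂ (Par E) l l := by
  induction l with
  | nil => exact .nil
  | cons a l ih => exact .cons (.refl a) ih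

theorem par_fwd {E : Tm → Tm → Prop} (hQ : ∀ x y, E x y → Q x y)
    (hE : ∀ x y, E x y → ∀ v l, Ev v x l ↔ Ev v y l)
    {v : Bool} {a : Tm} {l : List Tm} (e : Ev v a l) :
    ∀ a' l', Par E a a' → List.Forall₂ (Par E) l l' → Ev v a' l' := by
  induction e with
  | tt =>
    intro a' l' h hl
    cases hl
    cases h with
    | refl => exact .tt
    | root _ _ h => cases h
  | ff =>
    intro a' l' h hl
    cases hl
    cases h with
    | refl => exact .ff
    | root _ _ h => cases h
  | app v a b l _ ih =>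
    intro a' l' h hl
    cases h with
    | refl => exact .app _ _ _ _ (ih _ _ (.refl _) (.cons (.refl _) hl))
    | root _ _ h => exact root_fwd hE h (.app _ _ _ _ (ih _ _ (.refl _) (.cons (.refl _) hl)))
    | app _ a1 _ b1 h1 h2 => exact .app _ _ _ _ (ih _ _ h1 (.cons h2 hl))
  | eI v x l _ ih =>
    intro a' l' h hl
    cases hl with | cons hx hl =>
    cases h with
    | refl => exact .eI _ _ _ (ih _ _ hx hl)
    | root _ _ h => cases h
  | eK v x y l _ ih =>
    intro a' l' h hl
    cases hl with | cons hx hl => cases hl with | cons hy hl =>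
    cases h with
    | refl => exact .eK _ _ _ _ (ih _ _ hx hl)
    | root _ _ h => cases h
  | eS v x y z l _ ih =>
    intro a' l' h hl
    cases hl with | cons hx hl => cases hl with | cons hy hl => cases hl with | cons hz hl =>
    cases h with
    | refl => exact .eS _ _ _ _ _ (ih _ _ hx (.cons hz (.cons (.app _ _ _ _ hy hz) hl)))
    | root _ _ h => cases h
  | eT v z x y l _ _ ihz ih =>
    intro a' l' h hl
    cases hl with | cons hz hl => cases hl with | cons hx hl => cases hl with | cons hy hl =>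
    cases h with
    | refl => exact .eT _ _ _ _ _ (ihz _ _ hz .nil) (ih _ _ hx hl)
    | root _ _ h => cases h
  | eF v z x y l _ _ ihz ih =>
    intro a' l' h hl
    cases hl with | cons hz hl => cases hl with | cons hx hl => cases hl with | cons hy hl =>
    cases h with
    | refl => exact .eF _ _ _ _ _ (ihz _ _ hz .nil) (ih _ _ hy hl)
    | root _ _ h => cases h
  | eC v z x y l q _ _ ih1 ih2 =>
    intro a' l' h hl
    cases hl with | cons hz hl => cases hl with | cons hx hl => cases hl with | cons hy hl =>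
    cases h with
    | refl =>
      exact .eC _ _ _ _ _ (((Rs_Q (par_Rs hQ hx)).symm.trans q).trans (Rs_Q (par_Rs hQ hy)))
        (ih1 _ _ hx hl) (ih2 _ _ hy hl)
    | root _ _ h => cases h

theorem par_bwd {E : Tm → Tm → Prop} (hQ : ∀ x y, E x y → Q x y)
    (hE : ∀ x y, E x y → ∀ v l, Ev v x l ↔ Ev v y l)
    {v : Bool} {a' : Tm} {l' : List Tm} (e : Ev v a' l') :
    ∀ a l, Par E a a' → List.Forall₂ (Par E) l l' → Ev v a l := by
  induction e with
  | tt =>
    intro a l h hl
    cases hl
    cases h with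
    | refl => exact .tt
    | root _ _ h => exact root_bwd hQ hE h .tt
  | ff =>
    intro a l h hl
    cases hl
    cases h with
    | refl => exact .ff
    | root _ _ h => exact root_bwd hQ hE h .ff
  | app v a b l _ ih =>
    intro a0 l0 h hl
    cases h with
    | refl => exact .app _ _ _ _ (ih _ _ (.refl _) (.cons (.refl _) hl))
    | root _ _ h => exact root_bwd hQ hE h (.app _ _ _ _ (ih _ _ (.refl _) (.cons (.refl _) hl)))
    | app a1 _ b1 _ h1 h2 => exact .app _ _ _ _ (ih _ _ h1 (.cons h2 hl))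
  | eI v x l _ ih =>
    intro a0 l0 h hl
    cases hl with | cons hx hl =>
    cases h with
    | refl => exact .eI _ _ _ (ih _ _ hx hl)
    | root _ _ h => exact root_bwd hQ hE h (.eI _ _ _ (ih _ _ hx hl))
  | eK v x y l _ ih =>
    intro a0 l0 h hl
    cases hl with | cons hx hl => cases hl with | cons hy hl =>
    cases h with
    | refl => exact .eK _ _ _ _ (ih _ _ hx hl)
    | root _ _ h => exact root_bwd hQ hE h (.eK _ _ _ _ (ih _ _ hx hl))
  | eS v x y z l _ ih =>
    intro a0 l0 h hl
    cases hl with | cons hx hl => cases hl with | cons hy hl => cases hl with | cons hz hl =>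
    cases h with
    | refl => exact .eS _ _ _ _ _ (ih _ _ hx (.cons hz (.cons (.app _ _ _ _ hy hz) hl)))
    | root _ _ h =>
      exact root_bwd hQ hE h
        (.eS _ _ _ _ _ (ih _ _ hx (.cons hz (.cons (.app _ _ _ _ hy hz) hl))))
  | eT v z x y l _ _ ihz ih =>
    intro a0 l0 h hl
    cases hl with | cons hz hl => cases hl with | cons hx hl => cases hl with | cons hy hl =>
    cases h with
    | refl => exact .eT _ _ _ _ _ (ihz _ _ hz .nil) (ih _ _ hx hl)
    | root _ _ h => exact root_bwd hQ hE h (.eT _ _ _ _ _ (ihz _ _ hz .nil) (ih _ _ hx hl))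
  | eF v z x y l _ _ ihz ih =>
    intro a0 l0 h hl
    cases hl with | cons hz hl => cases hl with | cons hx hl => cases hl with | cons hy hl =>
    cases h with
    | refl => exact .eF _ _ _ _ _ (ihz _ _ hz .nil) (ih _ _ hy hl)
    | root _ _ h => exact root_bwd hQ hE h (.eF _ _ _ _ _ (ihz _ _ hz .nil) (ih _ _ hy hl))
  | eC v z x y l q _ _ ih1 ih2 =>
    intro a0 l0 h hl
    cases hl with | cons hz hl => cases hl with | cons hx hl => cases hl with | cons hy hl =>
    have q' := ((Rs_Q (par_Rs hQ hx)).trans q).trans (Rs_Q (par_Rs hQ hy)).symm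
    cases h with
    | refl => exact .eC _ _ _ _ _ q' (ih1 _ _ hx hl) (ih2 _ _ hy hl)
    | root _ _ h => exact root_bwd hQ hE h (.eC _ _ _ _ _ q' (ih1 _ _ hx hl) (ih2 _ _ hy hl))

theorem ev_lev : ∀ n x y, EqvGen (lev n) x y → ∀ v l, Ev v x l ↔ Ev v y l := by
  intro n
  induction n with
  | zero =>
    intro x y h v l
    induction h with
    | rel a b h => exact h.elim
    | refl => rfl
    | symm _ _ _ ih => exact ih.symm
    | trans _ _ _ _ _ ih1 ih2 => exact ih1.trans ih2
  | succ n ihn =>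
    intro x y h v l
    induction h with
    | rel a b h =>
      have p := step_par (show Step (EqvGen (lev n)) a b from h)
      exact ⟨fun e => par_fwd (fun _ _ => lev_Q) ihn e _ _ p (f2_refl l),
        fun e => par_bwd (fun _ _ => lev_Q) ihn e _ _ p (f2_refl l)⟩
    | refl => rfl
    | symm _ _ _ ih => exact ih.symm
    | trans _ _ _ _ _ ih1 ih2 => exact ih1.trans ih2

theorem Q_T {z : Tm} (h : Q z T) : Rs z T := by
  obtain ⟨n, h⟩ := Q_lev h
  exact ev_sound ((ev_lev n _ _ h true []).2 .tt)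

theorem Q_F {z : Tm} (h : Q z F) : Rs z F := by
  obtain ⟨n, h⟩ := Q_lev h
  exact ev_sound ((ev_lev n _ _ h false []).2 .ff)

theorem not_TF : ¬ Q T F := by
  intro h
  obtain ⟨n, h⟩ := Q_lev h
  have := (ev_lev n _ _ h true []).1 .tt
  cases this

/-- nested parallel reduction of the deterministic subsystem -/
inductive W : Tm → Tm → Prop
  | refl (a) : W a a
  | app (a a' b b') : W a a' → W b b' → W (app a b) (app a' b')
  | wI (x x') : W x x' → W (app I x) x'
  | wK (x x' y) : W x x' → W (app (app K x) y) x'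
  | wS (x x' y y' z z') : W x x' → W y y' → W z z' →
      W (app (app (app S x) y) z) (app (app x' z') (app y' z'))
  | wL (z x x' y) : (Q z T ∨ (Q x y ∧ ¬ Q z F)) → W x x' → W (app (app (app C z) x) y) x'
  | wR (z x y y') : Q z F → W y y' → W (app (app (app C z) x) y) y'

theorem W_Rs {a b : Tm} (h : W a b) : Rs a b := by
  induction h with
  | refl a => exact .refl
  | app a a' b b' _ _ ih1 ih2 => exact Rs_app ih1 ih2
  | wI x x' _ ih => exact .head (R_I x) ih
  | wK x x' y _ ih => exact .head (R_K x y) ih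
  | wS x x' y y' z z' _ _ _ ih1 ih2 ih3 =>
    exact .head (R_S x y z) (Rs_app (Rs_app ih1 ih3) (Rs_app ih2 ih3))
  | wL z x x' y c _ ih =>
    rcases c with c | c
    · exact (Rs_left y (Rs_left x (Rs_right C (Q_T c)))).trans (.head (R_T x y) ih)
    · exact .head (R_C z c.1) ih
  | wR z x y y' c _ ih =>
    exact (Rs_left y (Rs_left x (Rs_right C (Q_F c)))).trans (.head (R_F x y) ih)

theorem W_Q {a b : Tm} (h : W a b) : Q a b := Rs_Q (W_Rs h)

theorem inv_I {b : Tm} (h : W I b) : b = I := by cases h; rfl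
theorem inv_K {b : Tm} (h : W K b) : b = K := by cases h; rfl
theorem inv_S {b : Tm} (h : W S b) : b = S := by cases h; rfl
theorem inv_C {b : Tm} (h : W C b) : b = C := by cases h; rfl

theorem inv_K1 {x b : Tm} (h : W (app K x) b) : ∃ x', b = app K x' ∧ W x x' := by
  cases h with
  | refl => exact ⟨x, rfl, .refl x⟩
  | app _ a' _ b' h1 h2 => exact ⟨b', by rw [inv_K h1], h2⟩

theorem inv_S1 {x b : Tm} (h : W (app S x) b) : ∃ x', b = app S x' ∧ W x x' := by
  cases h with
  | refl => exact ⟨x, rfl, .refl x⟩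
  | app _ a' _ b' h1 h2 => exact ⟨b', by rw [inv_S h1], h2⟩

theorem inv_C1 {x b : Tm} (h : W (app C x) b) : ∃ x', b = app C x' ∧ W x x' := by
  cases h with
  | refl => exact ⟨x, rfl, .refl x⟩
  | app _ a' _ b' h1 h2 => exact ⟨b', by rw [inv_C h1], h2⟩

theorem inv_S2 {x y b : Tm} (h : W (app (app S x) y) b) :
    ∃ x' y', b = app (app S x') y' ∧ W x x' ∧ W y y' := by
  cases h with
  | refl => exact ⟨x, y, rfl, .refl x, .refl y⟩
  | app _ a' _ b' h1 h2 =>
    obtain ⟨x', rfl, hx⟩ := inv_S1 h1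
    exact ⟨x', b', rfl, hx, h2⟩

theorem inv_C2 {x y b : Tm} (h : W (app (app C x) y) b) :
    ∃ x' y', b = app (app C x') y' ∧ W x x' ∧ W y y' := by
  cases h with
  | refl => exact ⟨x, y, rfl, .refl x, .refl y⟩
  | app _ a' _ b' h1 h2 =>
    obtain ⟨x', rfl, hx⟩ := inv_C1 h1
    exact ⟨x', b', rfl, hx, h2⟩

theorem condL {z x y z' x' y' : Tm} (c : Q z T ∨ (Q x y ∧ ¬ Q z F)) (hz : W z z') (hx : W x x')
    (hy : W y y') : Q z' T ∨ (Q x' y' ∧ ¬ Q z' F) := by
  rcases c with c | c
  · exact Or.inl ((W_Q hz).symm.trans c)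
  · exact Or.inr ⟨((W_Q hx).symm.trans c.1).trans (W_Q hy), fun q => c.2 ((W_Q hz).trans q)⟩

theorem condLR {z x y : Tm} (c : Q z T ∨ (Q x y ∧ ¬ Q z F)) (c' : Q z F) : False := by
  rcases c with c | c
  · exact not_TF (c.symm.trans c')
  · exact c.2 c'

theorem diamond : ∀ (n : ℕ) (a : Tm), sizeOf a < n → ∀ b c, W a b → W a c →
    ∃ d, W b d ∧ W c d := by
  intro n
  induction n with
  | zero => intro a h; omega
  | succ n ih =>
    intro a hs b c h1 h2
    cases h1 with
    | refl => exact ⟨c, h2, .refl c⟩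
    | app a1 b1 a2 b2 p1 p2 =>
      simp only [Tm.app.sizeOf_spec] at hs
      cases h2 with
      | refl => exact ⟨_, .refl _, .app _ _ _ _ p1 p2⟩
      | app _ c1 _ c2 q1 q2 =>
        obtain ⟨d1, r1, s1⟩ := ih a1 (by omega) _ _ p1 q1
        obtain ⟨d2, r2, s2⟩ := ih a2 (by omega) _ _ p2 q2
        exact ⟨_, .app _ _ _ _ r1 r2, .app _ _ _ _ s1 s2⟩
      | wI _ _ q =>
        obtain rfl := inv_I p1
        obtain ⟨d, r, s⟩ := ih a2 (by omega) _ _ p2 q
        exact ⟨d, .wI _ _ r, s⟩
      | wK x _ _ q =>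
        simp only [Tm.app.sizeOf_spec] at hs
        obtain ⟨x', rfl, hx⟩ := inv_K1 p1
        obtain ⟨d, r, s⟩ := ih x (by omega) _ _ hx q
        exact ⟨d, .wK _ _ _ r, s⟩
      | wS x x2 y y2 _ z2 qx qy qz =>
        simp only [Tm.app.sizeOf_spec] at hs
        obtain ⟨x', y', rfl, hx, hy⟩ := inv_S2 p1
        obtain ⟨dx, rx, sx⟩ := ih x (by omega) _ _ hx qx
        obtain ⟨dy, ry, sy⟩ := ih y (by omega) _ _ hy qy
        obtain ⟨dz, rz, sz⟩ := ih a2 (by omega) _ _ p2 qz
        exact ⟨_, .wS _ _ _ _ _ _ rx ry rz, .app _ _ _ _ (.app _ _ _ _ sx sz) (.app _ _ _ _ sy sz)⟩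
      | wL z x _ _ cc q =>
        simp only [Tm.app.sizeOf_spec] at hs
        obtain ⟨z', x', rfl, hz, hx⟩ := inv_C2 p1
        obtain ⟨d, r, s⟩ := ih x (by omega) _ _ hx q
        exact ⟨d, .wL _ _ _ _ (condL cc hz hx p2) r, s⟩
      | wR z x _ _ cc q =>
        simp only [Tm.app.sizeOf_spec] at hs
        obtain ⟨z', x', rfl, hz, hx⟩ := inv_C2 p1
        obtain ⟨d, r, s⟩ := ih a2 (by omega) _ _ p2 q
        exact ⟨d, .wR _ _ _ _ ((W_Q hz).symm.trans cc) r, s⟩
    | wI x _ p =>
      simp only [Tm.app.sizeOf_spec] at hs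
      cases h2 with
      | refl => exact ⟨_, .refl _, .wI _ _ p⟩
      | app _ c1 _ c2 q1 q2 =>
        obtain rfl := inv_I q1
        obtain ⟨d, r, s⟩ := ih x (by omega) _ _ p q2
        exact ⟨d, r, .wI _ _ s⟩
      | wI _ _ q => exact ih x (by omega) _ _ p q
    | wK x _ y p =>
      simp only [Tm.app.sizeOf_spec] at hs
      cases h2 with
      | refl => exact ⟨_, .refl _, .wK _ _ _ p⟩
      | app _ c1 _ c2 q1 q2 =>
        obtain ⟨x', rfl, hx⟩ := inv_K1 q1
        obtain ⟨d, r, s⟩ := ih x (by omega) _ _ p hx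
        exact ⟨d, r, .wK _ _ _ s⟩
      | wK _ _ _ q => exact ih x (by omega) _ _ p q
    | wS x x1 y y1 z z1 px py pz =>
      simp only [Tm.app.sizeOf_spec] at hs
      cases h2 with
      | refl => exact ⟨_, .refl _, .wS _ _ _ _ _ _ px py pz⟩
      | app _ c1 _ c2 q1 q2 =>
        obtain ⟨x', y', rfl, hx, hy⟩ := inv_S2 q1
        obtain ⟨dx, rx, sx⟩ := ih x (by omega) _ _ px hx
        obtain ⟨dy, ry, sy⟩ := ih y (by omega) _ _ py hy
        obtain ⟨dz, rz, sz⟩ := ih z (by omega) _ _ pz q2
        exact ⟨_, .app _ _ _ _ (.app _ _ _ _ rx rz) (.app _ _ _ _ ry rz), .wS _ _ _ _ _ _ sx sy sz⟩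
      | wS _ x2 _ y2 _ z2 qx qy qz =>
        obtain ⟨dx, rx, sx⟩ := ih x (by omega) _ _ px qx
        obtain ⟨dy, ry, sy⟩ := ih y (by omega) _ _ py qy
        obtain ⟨dz, rz, sz⟩ := ih z (by omega) _ _ pz qz
        exact ⟨_, .app _ _ _ _ (.app _ _ _ _ rx rz) (.app _ _ _ _ ry rz),
          .app _ _ _ _ (.app _ _ _ _ sx sz) (.app _ _ _ _ sy sz)⟩
    | wL z x _ y cc p =>
      simp only [Tm.app.sizeOf_spec] at hs
      cases h2 with
      | refl => exact ⟨_, .refl _, .wL _ _ _ _ cc p⟩
      | app _ c1 _ c2 q1 q2 =>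
        obtain ⟨z', x', rfl, hz, hx⟩ := inv_C2 q1
        obtain ⟨d, r, s⟩ := ih x (by omega) _ _ p hx
        exact ⟨d, r, .wL _ _ _ _ (condL cc hz hx q2) s⟩
      | wL _ _ _ _ _ q => exact ih x (by omega) _ _ p q
      | wR _ _ _ _ c' q => exact (condLR cc c').elim
    | wR z x y _ cc p =>
      simp only [Tm.app.sizeOf_spec] at hs
      cases h2 with
      | refl => exact ⟨_, .refl _, .wR _ _ _ _ cc p⟩
      | app _ c1 _ c2 q1 q2 =>
        obtain ⟨z', x', rfl, hz, hx⟩ := inv_C2 q1
        obtain ⟨d, r, s⟩ := ih y (by omega) _ _ p q2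
        exact ⟨d, r, .wR _ _ _ _ ((W_Q hz).symm.trans cc) s⟩
      | wL _ _ _ _ c' q => exact (condLR c' cc).elim
      | wR _ _ _ _ _ q => exact ih y (by omega) _ _ p q

def J (a b : Tm) : Prop := Join (ReflTransGen W) a b

theorem J_equiv : Equivalence J :=
  equivalence_join_reflTransGen (fun a b c h1 h2 => by
    obtain ⟨d, r, s⟩ := diamond _ a (Nat.lt_succ_self _) b c h1 h2
    exact ⟨d, .single r, .single s⟩)

theorem W_J {a b : Tm} (h : W a b) : J a b := ⟨b, .single h, .refl⟩

theorem J_left {a a' : Tm} (b : Tm) (h : J a a') : J (app a b) (app a' b) := by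
  obtain ⟨d, h1, h2⟩ := h
  exact ⟨app d b, ReflTransGen.lift (fun x => app x b) (fun _ _ h => W.app _ _ _ _ h (.refl b)) _ _ h1,
    ReflTransGen.lift (fun x => app x b) (fun _ _ h => W.app _ _ _ _ h (.refl b)) _ _ h2⟩

theorem J_right (a : Tm) {b b' : Tm} (h : J b b') : J (app a b) (app a b') := by
  obtain ⟨d, h1, h2⟩ := h
  exact ⟨app a d, ReflTransGen.lift (fun x => app a x) (fun _ _ h => W.app _ _ _ _ (.refl a) h) _ _ h1,
    ReflTransGen.lift (fun x => app a x) (fun _ _ h => W.app _ _ _ _ (.refl a) h) _ _ h2⟩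

theorem step_J {E : Tm → Tm → Prop} (hQ : ∀ x y, E x y → Q x y) (hJ : ∀ x y, E x y → J x y)
    {a b : Tm} (s : Step E a b) : J a b := by
  induction s with
  | ruleI x => exact W_J (.wI _ _ (.refl x))
  | ruleK x y => exact W_J (.wK _ _ _ (.refl x))
  | ruleS x y z => exact W_J (.wS _ _ _ _ _ _ (.refl x) (.refl y) (.refl z))
  | ruleT x y => exact W_J (.wL _ _ _ _ (Or.inl (Q.refl T)) (.refl x))
  | ruleF x y => exact W_J (.wR _ _ _ _ (Q.refl F) (.refl y))
  | ruleC z x y e =>
    by_cases c : Q z F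
    · exact J_equiv.trans (W_J (.wR _ _ _ _ c (.refl y))) (J_equiv.symm (hJ _ _ e))
    · exact W_J (.wL _ _ _ _ (Or.inr ⟨hQ _ _ e, c⟩) (.refl x))
  | left a a' b _ ih => exact J_left b ih
  | right a b b' _ ih => exact J_right a ih

theorem lev_J : ∀ n x y, EqvGen (lev n) x y → J x y := by
  intro n
  induction n with
  | zero =>
    intro x y h
    induction h with
    | rel a b h => exact h.elim
    | refl => exact J_equiv.refl _
    | symm _ _ _ ih => exact J_equiv.symm ih
    | trans _ _ _ _ _ ih1 ih2 => exact J_equiv.trans ih1 ih2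
  | succ n ihn =>
    intro x y h
    induction h with
    | rel a b h => exact step_J (fun _ _ => lev_Q) ihn h
    | refl => exact J_equiv.refl _
    | symm _ _ _ ih => exact J_equiv.symm ih
    | trans _ _ _ _ _ ih1 ih2 => exact J_equiv.trans ih1 ih2

theorem Ws_Rs {a b : Tm} (h : ReflTransGen W a b) : Rs a b := by
  induction h with
  | refl => exact .refl
  | tail _ h ih => exact ih.trans (W_Rs h)

theorem result (t t₁ t₂ : Tm) (h₁ : ReflTransGen R t t₁) (h₂ : ReflTransGen R t t₂) :
    ∃ u, ReflTransGen R t₁ u ∧ ReflTransGen R t₂ u := by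
  obtain ⟨n, h⟩ := Q_lev ((Rs_Q h₁).symm.trans (Rs_Q h₂))
  obtain ⟨u, p, q⟩ := lev_J n _ _ h
  exact ⟨u, Ws_Rs p, Ws_Rs q⟩

end Pool.Agent.Results.MP_18c441_lc.Confluent
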